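import Pool.Agent.H69.QC.TJF

/-!
# The quantum classical hierarchy relative to an oracle with Σ_k in EQP: module TJ0
-/

set_option autoImplicit false

namespace Pool.Agent.H69.QC

open Finset Filter Pool.Agent.H6.NB Pool.Agent.H70.OQ Pool.Agent.H70.RK Pool.Agent.H68.QC

/-- TJ0: the table lemma for quantum algorithms. -/
theorem pf_TJ0 (hST0 : T_ST0) (hSTP : T_STP) (hBS0 : T_BS0) (hLCY : T_LCY) (hPA0 : T_PA0)
    (hCDN : T_CDN) : T_TJ0 := by
  intro k c C ε hε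
  filter_upwards [hPA0 k c C ε hε] with n hn
  intro mw m alg e hmw hm hmn hAdm he
  obtain ⟨t, w, K, g, m0, htk, ht, hw, hg, hm0, hmK, hK, hsum⟩ := hn m hm hmn
  refine ⟨K, hK, ?_⟩
  have hT0 : (0 : ℝ) ≤ C * 2 ^ ((1 / 2 - ε) * n) := by positivity
  obtain ⟨hY, hN⟩ := hLCY mw 0 _ alg hAdm
  have hY' := loc_mono hY hmw
  have hN' := loc_mono hN hmw
  have hw0 : 1 ≤ w 0 := (ht 1 (by omega)).trans (hw 0 (by omega)).1
  have hw0R : (0 : ℝ) < w 0 := by exact_mod_cast hw0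
  have hbase := hST0 (Fin n → Bool) (Ys n) (Yes mw 0 alg) (No mw 0 alg) true K m0 m (t 1) (w 0) 0
    (t 0) (2 ^ (n - g)) (1 / (64 * w 0)) (ht 1 (by omega)) (hw 0 (by omega)).1 (by positivity)
    (by rw [mul_one_div_cancel (by positivity)]) (hw 0 (by omega)).2 hY' hN' Nat.one_le_two_pow hmK
    (fun V1' V0' hF => hBS0 (Fin n → Bool) (Ys n) mw (t 0) m0 _ alg V1' V0' hAdm hT0 hm0 hF)
  refine fin hSTP hCDN (fun s => t (s + 1)) (fun s => w (s + 1)) (fun s => s + 1) (fun _ => rfl) hg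
    k (fun s hs => ht (s + 1) (by omega)) (fun s hs => hw (s + 1) (by omega)) hY' hN'
    (mul_nonneg zero_le_two (erho_nonneg m (t 1) (w 0) 0)) hbase ?_ (by omega) ?_
  · refine le_trans (le_of_eq ?_) hsum
    simp only [zero_add]
  · exact ⟨e, fun w => by rw [htk]; exact he w, fun _ => Iff.rfl, fun _ => Iff.rfl⟩

end Pool.Agent.H69.QC
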