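import Pool.Agent.H68.QC.Targets

/-!
# The quantum classical hierarchy relative to an oracle with Σ_k in EQP: the induction over the levels

Common part of the modules TJJ, TJF, TJ0, TJR.
-/

set_option autoImplicit false

namespace Pool.Agent.H69.QC

open Finset Filter Pool.Agent.H6.NB Pool.Agent.H70.OQ Pool.Agent.H70.RK Pool.Agent.H68.QC

theorem uw_univ {A Z : Type} [Fintype A] [Fintype Z] [DecidableEq Z] (h : A → Z) :
    uw (fun _ : A => (univ : Finset Z)) h = 1 / (Fintype.card Z : ℝ) ^ Fintype.card A := by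
  unfold uw
  simp [Finset.prod_const, Finset.card_univ]

/-- `Bad` is rare among all hidden children. -/
theorem count {X : Type} {Y : ℕ → Type} [Fintype X] [DecidableEq X] [∀ i, Fintype (Y i)]
    [∀ i, DecidableEq (Y i)] [∀ i, Nonempty (Y i)] {b : Bool} {K i M : ℕ}
    {C : Cls (Node X Y (i + 1))} {E : ℝ} (hT : TabB X Y b K i M C E)
    (hM : M ≤ Fintype.card (Y i)) {V1 V0 : (Node X Y (i + 1) → Bool) → Prop} (hC : C V1 V0) :
    ({H : Hid X Y (i + 1) | Bad b K (i + 1) V1 V0 H}.ncard : ℝ) ≤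
      E * Fintype.card (Hid X Y (i + 1)) := by
  classical
  have h1 := hT (fun _ => univ) V1 V0 hC (fun _ => by rw [Finset.card_univ]; exact hM)
  simp only [uw_univ, ← Finset.mul_sum] at h1
  have hN : (0 : ℝ) < (Fintype.card (Y i) : ℝ) ^ Fintype.card (Node X Y i) :=
    pow_pos (by exact_mod_cast Fintype.card_pos) _
  have hcard : (Fintype.card (Hid X Y (i + 1)) : ℝ) =
      Fintype.card (Hid X Y i) * (Fintype.card (Y i) : ℝ) ^ Fintype.card (Node X Y i) := by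
    have : Fintype.card (Hid X Y (i + 1)) = Fintype.card (Hid X Y i × (Node X Y i → Y i)) := rfl
    rw [this, Fintype.card_prod, Fintype.card_fun]
    push_cast
    ring
  have hcnt : ({H : Hid X Y (i + 1) | Bad b K (i + 1) V1 V0 H}.ncard : ℝ) =
      ∑ H : Hid X Y i, ∑ h : Node X Y i → Y i,
        ic (Bad b K (i + 1) V1 V0 ((H, h) : Hid X Y (i + 1))) := by
    rw [Set.ncard_eq_toFinset_card']
    rw [Finset.card_eq_sum_ones, Nat.cast_sum]
    have h2 : ∀ F : Hid X Y (i + 1) → ℝ, ∑ H : Hid X Y (i + 1), F H =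
        ∑ H : Hid X Y i, ∑ h : Node X Y i → Y i, F ((H, h) : Hid X Y (i + 1)) := fun F =>
      Fintype.sum_prod_type (f := fun p : Hid X Y i × (Node X Y i → Y i) => F p)
    rw [← h2 fun H => ic (Bad b K (i + 1) V1 V0 H)]
    simp only [Set.toFinset_setOf, Finset.sum_filter, ic, Nat.cast_one]
  rw [hcnt, hcard]
  calc _ = (1 / (Fintype.card (Y i) : ℝ) ^ Fintype.card (Node X Y i) *
        ∑ H : Hid X Y i, ∑ h : Node X Y i → Y i,
          ic (Bad b K (i + 1) V1 V0 ((H, h) : Hid X Y (i + 1)))) *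
        (Fintype.card (Y i) : ℝ) ^ Fintype.card (Node X Y i) := by
        field_simp
    _ ≤ (E * Fintype.card (Hid X Y i)) * (Fintype.card (Y i) : ℝ) ^ Fintype.card (Node X Y i) :=
        mul_le_mul_of_nonneg_right h1 hN.le
    _ = _ := by ring

theorem erho_nonneg (m t w r : ℕ) : 0 ≤ erho m t w r := by
  unfold erho
  positivity

theorem elam_nonneg (n i g w : ℕ) (hw : 1 ≤ w) : 0 ≤ elam n i g (1 / (64 * w)) := by
  unfold elam
  have : (1 : ℝ) / (64 * w) ≤ 1 := by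
    rw [div_le_one (by positivity)]
    have : (1 : ℝ) ≤ w := by exact_mod_cast hw
    linarith
  have h2 : (0 : ℝ) ≤ 1 - 1 / (64 * w) := by linarith
  positivity

/-- The induction over the levels. -/
theorem ind (hSTP : T_STP) (hCDN : T_CDN) {n : ℕ} {b : Bool} {K i0 m g : ℕ}
    {Φ1 Φ0 : (List Bool → Bool) → Prop} (t w lev : ℕ → ℕ) {E0 : ℝ}
    (hlev : ∀ s, lev (s + 1) = lev s + 1) (hg : g ≤ n) (k : ℕ) (ht : ∀ s ≤ k, 1 ≤ t s)
    (hw : ∀ s < k, t (s + 1) ≤ w s ∧ t (s + 1) * w s ≤ t s) (h1 : Loc m Φ1) (h0 : Loc m Φ0)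
    (hE0 : 0 ≤ E0)
    (hbase : TabB (Fin n → Bool) (Ys n) b K i0 (2 ^ (n - g) * Fintype.card (Nn n i0))
      (Fam (Nn n (i0 + 1)) Φ1 Φ0 (t 0) (lev 0)) E0) :
    ∀ s ≤ k, TabB (Fin n → Bool) (Ys n) b K (i0 + s) (2 ^ (n - g) * Fintype.card (Nn n (i0 + s)))
      (Fam (Nn n (i0 + s + 1)) Φ1 Φ0 (t s) (lev s))
      (∑ r ∈ range s, (erho m (t (r + 1)) (w r) (lev r) + elam n (i0 + r) g (1 / (64 * w r))) +
        E0) := by
  have hw1 : ∀ s < k, 1 ≤ w s := fun s hs => (ht (s + 1) hs).trans (hw s hs).1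
  intro s
  induction s with
  | zero =>
    intro _
    simpa using hbase
  | succ s ih =>
    intro hs
    have hs' : s < k := hs
    have hws := hw1 s hs'
    have hwR : (0 : ℝ) < w s := by exact_mod_cast hws
    have hE : 0 ≤ ∑ r ∈ range s, (erho m (t (r + 1)) (w r) (lev r) +
        elam n (i0 + r) g (1 / (64 * w r))) + E0 := by
      refine add_nonneg (Finset.sum_nonneg fun r hr => ?_) hE0
      exact add_nonneg (erho_nonneg _ _ _ _)
        (elam_nonneg _ _ _ _ (hw1 r ((Finset.mem_range.1 hr).trans hs')))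
    have hcard : 2 ^ g * (2 ^ (n - g) * Fintype.card (Nn n (i0 + s))) ≤
        Fintype.card (Ys n (i0 + s)) := by
      rw [(hCDN n (i0 + s)).1, (hCDN n (i0 + s)).2, ← mul_assoc, ← pow_add,
        Nat.add_sub_cancel' hg]
    have hstep := hSTP (Fin n → Bool) (Ys n) Φ1 Φ0 b K (i0 + s) m (t (s + 1)) (w s) (lev s) (t s)
      (2 ^ (n - g)) (2 ^ g) (1 / (64 * w s)) _ (ht (s + 1) hs) (hw s hs').1 (by positivity)
      (by rw [mul_one_div_cancel (by positivity)]) (hw s hs').2 h1 h0 hE Nat.one_le_two_pow hcard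
      (ih (by omega))
    rw [hlev s]
    have herr : erho m (t (s + 1)) (w s) (lev s) +
        (Fintype.card (Nn n (i0 + s)) : ℝ) * (2 ^ (n - g) * Fintype.card (Nn n (i0 + s)) : ℕ) *
          (1 - 1 / (64 * w s)) ^ 2 ^ g +
        (∑ r ∈ range s, (erho m (t (r + 1)) (w r) (lev r) + elam n (i0 + r) g (1 / (64 * w r))) +
          E0) =
        ∑ r ∈ range (s + 1), (erho m (t (r + 1)) (w r) (lev r) +
          elam n (i0 + r) g (1 / (64 * w r))) + E0 := by
      rw [Finset.sum_range_succ]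
      unfold elam
      rw [(hCDN n (i0 + s)).1]
      push_cast
      ring
    rw [← herr]
    exact hstep

/-- The end of the induction. -/
theorem fin (hSTP : T_STP) (hCDN : T_CDN) {n : ℕ} {b : Bool} {K i0 m g : ℕ}
    {Φ1 Φ0 : (List Bool → Bool) → Prop} (t w lev : ℕ → ℕ) {E0 : ℝ}
    (hlev : ∀ s, lev (s + 1) = lev s + 1) (hg : g ≤ n) (k : ℕ) (ht : ∀ s ≤ k, 1 ≤ t s)
    (hw : ∀ s < k, t (s + 1) ≤ w s ∧ t (s + 1) * w s ≤ t s) (h1 : Loc m Φ1) (h0 : Loc m Φ0)
    (hE0 : 0 ≤ E0)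
    (hbase : TabB (Fin n → Bool) (Ys n) b K i0 (2 ^ (n - g) * Fintype.card (Nn n i0))
      (Fam (Nn n (i0 + 1)) Φ1 Φ0 (t 0) (lev 0)) E0)
    (hsum : ∑ r ∈ range k, (erho m (t (r + 1)) (w r) (lev r) +
      elam n (i0 + r) g (1 / (64 * w r))) + E0 ≤ 1 / 100) {I : ℕ} (hI : I = i0 + k + 1)
    {V1 V0 : (Nn n I → Bool) → Prop} (hF : Fam (Nn n I) Φ1 Φ0 (t k) (lev k) V1 V0) :
    100 * {H : Hid (Fin n → Bool) (Ys n) I | Bad b K I V1 V0 H}.ncard ≤
      Fintype.card (Hid (Fin n → Bool) (Ys n) I) := by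
  subst hI
  have hT := ind hSTP hCDN t w lev hlev hg k ht hw h1 h0 hE0 hbase k le_rfl
  have hM : 2 ^ (n - g) * Fintype.card (Nn n (i0 + k)) ≤ Fintype.card (Ys n (i0 + k)) := by
    rw [(hCDN n (i0 + k)).1, (hCDN n (i0 + k)).2]
    exact Nat.mul_le_mul_right _ (Nat.pow_le_pow_right (by norm_num) (Nat.sub_le n g))
  have hc := count hT hM hF
  have h2 : ({H : Hid (Fin n → Bool) (Ys n) (i0 + k + 1) |
      Bad b K (i0 + k + 1) V1 V0 H}.ncard : ℝ) ≤
      1 / 100 * Fintype.card (Hid (Fin n → Bool) (Ys n) (i0 + k + 1)) :=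
    hc.trans (mul_le_mul_of_nonneg_right hsum (Nat.cast_nonneg _))
  have h3 : (100 : ℝ) * ({H : Hid (Fin n → Bool) (Ys n) (i0 + k + 1) |
      Bad b K (i0 + k + 1) V1 V0 H}.ncard : ℝ) ≤
      Fintype.card (Hid (Fin n → Bool) (Ys n) (i0 + k + 1)) := by
    linarith
  exact_mod_cast h3

end Pool.Agent.H69.QC
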